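import Pool.Agent.Run7.h661.Main

/-!
# Curvature flows of networks whose blow-ups have multiplicity two
-/

open Set Filter Topology
open scoped ContDiff Real

namespace Run7.h661.FingeredLens

open Run7.h661

/-- Every smooth curvature flow of the symmetric lens with two thin fingers, whose cells shrink to
the origin as `t → T`, violates multiplicity one at `(0,T)`: along a sequence `t n → T` the rescaled
upper and lower arms contain arcs which converge in `C¹` to one and the same segment. -/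
theorem result : ∀ (Ω : Set ℂ) (T t0 R h : ℝ) (γ : Arc → ℝ → ℝ → ℂ),
    IsNetworkFlow Ω T γ →
    (∀ t ∈ Ioo 0 T, LensType (fun i => γ i t)) →
    (∀ t ∈ Ioo 0 T, LensSymm (fun i => γ i t)) →
    1000 ≤ R → h ≤ 1 / 10000 →
    (∀ t ∈ Ioo 0 T, γ (.arm true true) t 1 = (R : ℂ) + h * Complex.I) →
    t0 ∈ Ioo 0 T → T - t0 = 1 / 2 → FingerState (fun i => γ i t0) →
    Tendsto (fun t => γ (.cap true) t (1 / 2)) (𝓝[<] T) (𝓝 0) →
    ∃ (t : ℕ → ℝ) (S : ℝ), (∀ n, t n ∈ Ioo 0 T) ∧ Tendsto t atTop (𝓝 T) ∧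
      ∀ s1 s2 : ℝ, S < s1 → s1 < s2 → ∀ τ : Bool,
        SubarcsConverge (fun n p => γ (.arm true τ) (t n) p / (√(2 * (T - t n)) : ℂ))
          (seg s1 s2) :=
  fun _ _ _ _ _ _ F hL hS hR hh hP ht0 hT hst hlim =>
    multiplicity_two F hL hS ht0 hT hR hh hP hst hlim

end Run7.h661.FingeredLens
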