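import Pool.Agent.Run7.h661.Z.Fin

/-!
# A curvature flow of regular networks with a blow-up limit of multiplicity two
-/

open Set Filter Topology

namespace Run7.h661.MultTwoFlow

open Run7.h661z

/-- There is a curvature flow of regular networks in a disc, with a singular time `T`, and a
sequence of times `t n → T`, along which the rescalings at the origin of two different curves of the
network (the upper and the lower arm on the right) contain arcs which converge in `C¹` to one and
the same segment, for all segments of a half-line. So every blow-up limit along a subsequence has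
multiplicity at least two on this half-line. -/
theorem result : ∃ (r T : ℝ) (γ : Arc → ℝ → ℝ → ℂ), 0 < r ∧ 0 < T ∧
    IsNetworkFlow (Metric.ball (0:ℂ) r) T γ ∧ IsSingularTime (Metric.ball (0:ℂ) r) T γ ∧
    ∃ (t : ℕ → ℝ) (S : ℝ), (∀ n, t n ∈ Ioo 0 T) ∧ Tendsto t atTop (𝓝 T) ∧
      ∀ s1 s2 : ℝ, S < s1 → s1 < s2 → ∀ τ : Bool,
        SubarcsConverge (fun n => rescale T (t n) 0 (γ (.arm true τ) (t n))) (seg s1 s2) :=
  main

end Run7.h661.MultTwoFlow
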